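import Pool.Agent.W_7d29a1_PN.DefsPW
import Pool.Agent.W_7d29a1_SP.Bas15
import Pool.Agent.W_7d29a1_Q29.R6a65

/-!
The route of the windows: from the points to almost every tilt, all large times (Borel - Cantelli
over the dyadic times).
-/

set_option autoImplicit false

namespace Pool.Agent.W_7d29a1_PN

open MeasureTheory ProbabilityTheory Filter Topology Pool.Agent.W_MP_7d29a1_pr
  Pool.Agent.W_7d29a1_h46 Pool.Agent.W_7d29a1_h46u Pool.Agent.W_7d29a1_D2.B35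
  Pool.Agent.W_7d29a1_Q29 Pool.Agent.W_7d29a1_R34 Pool.Agent.W_7d29a1_SP Pool.Agent.W_7d29a1_PL
  Pool.Agent.W_7d29a1_PA

lemma measurableSet_Lw62 {ρ : Measure ℝ} [IsProbabilityMeasure ρ] (hρ : EM ρ) (β c : ℝ) (N : ℕ) :
    MeasurableSet (Lw ρ β c N) := by
  have hcont : ∀ n : ℕ, Continuous fun h : Vec 2 => Va ρ β h n := cont65 (by norm_num) hρ β
  have e1 : Lw ρ β c N = ⋂ m : ℕ, ⋂ _ : m ≤ 64 * N ^ 3,
      {h : Vec 2 | Va ρ β h m ≤ (N : ℝ) ^ c} := by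
    ext h
    simp [Lw]
  rw [e1]
  exact (isClosed_iInter fun n => isClosed_iInter fun _ =>
    isClosed_le (hcont n) continuous_const).measurableSet

/-- From dyadic times to all times. -/
lemma dya62 {c : ℝ} (hc : 0 < c) {f : ℕ → ℝ}
    (hf : ∀ᶠ i : ℕ in atTop, ∃ m : ℕ, m ≤ 64 * (2 ^ i) ^ 3 ∧ ((2 ^ i : ℕ) : ℝ) ^ c < f m) :
    ∀ᶠ n : ℕ in atTop, ∃ m : ℕ, m ≤ n ∧ (n : ℝ) ^ (c / 4) ≤ f m := by
  obtain ⟨i₀, hi₀⟩ := eventually_atTop.1 hf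
  refine eventually_atTop.2 ⟨64 * 8 ^ (max i₀ 9), fun n hn => ?_⟩
  set k := max i₀ 9 with hk
  have hn1 : 8 ^ k ≤ n / 64 := by
    rw [Nat.le_div_iff_mul_le (by norm_num)]
    linarith
  have hn0 : n / 64 ≠ 0 := by
    have : 0 < 8 ^ k := by positivity
    omega
  set i := Nat.log 8 (n / 64) with hi
  have hki : k ≤ i := Nat.le_log_of_pow_le (by norm_num) hn1
  have h1 : 8 ^ i ≤ n / 64 := Nat.pow_log_le_self 8 hn0
  have h2 : n / 64 < 8 ^ (i + 1) := Nat.lt_pow_succ_log_self (by norm_num) _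
  have h3 : 64 * (2 ^ i) ^ 3 ≤ n := by
    have e : (2 ^ i) ^ 3 = 8 ^ i := by
      rw [← pow_mul, mul_comm i 3, pow_mul]
      norm_num
    rw [e]
    have := (Nat.le_div_iff_mul_le (by norm_num : 0 < 64)).1 h1
    linarith
  have h4 : n < 2 ^ (3 * i + 9) := by
    have e : (2 : ℕ) ^ (3 * i + 9) = 8 ^ (i + 1) * 64 := by
      have e8 : (8 : ℕ) ^ (i + 1) = 2 ^ (3 * (i + 1)) := by
        rw [pow_mul]
        norm_num
      rw [e8, show (64 : ℕ) = 2 ^ 6 by norm_num, ← pow_add]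
      congr 1
    rw [e]
    exact (Nat.div_lt_iff_lt_mul (by norm_num)).1 h2
  obtain ⟨m, hm, hfm⟩ := hi₀ i ((le_max_left _ _).trans hki)
  refine ⟨m, hm.trans h3, ?_⟩
  refine le_trans ?_ hfm.le
  have h5 : (n : ℝ) ≤ (2 : ℝ) ^ ((3 * i + 9 : ℕ) : ℝ) := by
    rw [Real.rpow_natCast]
    exact_mod_cast h4.le
  have h9 : 9 ≤ i := (le_max_right _ _).trans hki
  have h9' : (9 : ℝ) ≤ i := by exact_mod_cast h9
  calc (n : ℝ) ^ (c / 4) ≤ ((2 : ℝ) ^ ((3 * i + 9 : ℕ) : ℝ)) ^ (c / 4) :=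
        Real.rpow_le_rpow (by positivity) h5 (by positivity)
    _ = (2 : ℝ) ^ (((3 * i + 9 : ℕ) : ℝ) * (c / 4)) := by
        rw [← Real.rpow_mul (by norm_num)]
    _ ≤ (2 : ℝ) ^ ((i : ℝ) * c) := by
        refine Real.rpow_le_rpow_of_exponent_le (by norm_num) ?_
        push_cast
        nlinarith
    _ = ((2 ^ i : ℕ) : ℝ) ^ c := by
        rw [Real.rpow_mul (by norm_num)]
        push_cast
        rw [Real.rpow_natCast]

/-- **AllN by the route of the windows.** -/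
theorem allW62 {ρ : Measure ℝ} [IsProbabilityMeasure ρ] (hρ : EM ρ) {β : ℝ} (hW : WinP)
    (hP : PntW ρ β) (hC : CurvP ρ β) : AllN ρ β := by
  have hPj : ∀ j : ℕ, ∃ a c : ℝ, 0 < a ∧ a ≤ 1 / 16 ∧ 0 < c ∧ ∀ (h : Vec 2) (δ : ℝ), 0 < δ →
      lam ρ β h + 1 / ((j : ℝ) + 1) ≤ Real.log (Phi h) + Real.log (∫ t, Real.exp (β * t) ∂ρ) →
      (∀ r : ℝ, 0 < r → r ≤ δ → ∀ k : Fin 2,
        lam ρ β (h + r • ej k) + lam ρ β (h - r • ej k) - 2 * lam ρ β h ≤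
          ((j : ℝ) + 1) * r ^ 2) →
      ∃ N₀ : ℕ, ∀ N : ℕ, N₀ ≤ N → h ∈ Lw ρ β c N →
        ¬ Wn (Lw ρ β c N) h ((N : ℝ) ^ (-(1 / 2) + a)) ((N : ℝ) ^ (-(1 / 2) + 2 * a)) :=
    fun j => hP _ _ (by positivity) (by positivity)
  choose a c ha ha16 hc hpt using hPj
  have hWj : ∀ j : ℕ, ∃ C : ℝ, 0 ≤ C ∧ ∀ (G : Set (Vec 2)) (r : ℝ) (N : ℕ),
      MeasurableSet G → 0 < r → 1 ≤ N → (N : ℝ) * r ≤ 1 →
        volume {h : Vec 2 | h ∈ G ∧ ‖h‖ ≤ (j : ℝ) + 1 ∧ ¬ Wn G h r (N * r)} ≤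
          ENNReal.ofReal (C / (N + 1)) := fun j => hW _ (by positivity)
  choose C hC0 hvol using hWj
  -- the bad sets
  obtain ⟨r, hr⟩ : ∃ r : ℕ → ℕ → ℝ, r = fun (j i : ℕ) => ((2 ^ i : ℕ) : ℝ) ^ (-(1 / 2) + a j) :=
    ⟨_, rfl⟩
  obtain ⟨m, hm⟩ : ∃ m : ℕ → ℕ → ℕ, m = fun (j i : ℕ) => ⌊((2 ^ i : ℕ) : ℝ) ^ a j⌋₊ := ⟨_, rfl⟩
  have h2i : ∀ i : ℕ, (1 : ℝ) ≤ ((2 ^ i : ℕ) : ℝ) := by
    intro i
    exact_mod_cast Nat.one_le_two_pow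
  have h2i0 : ∀ i : ℕ, (0 : ℝ) < ((2 ^ i : ℕ) : ℝ) := fun i => by linarith [h2i i]
  have hr0 : ∀ j i, 0 < r j i := by
    intro j i
    rw [hr]
    exact Real.rpow_pos_of_pos (h2i0 i) _
  have hm1 : ∀ j i, 1 ≤ m j i := by
    intro j i
    rw [hm]
    exact Nat.one_le_floor_iff _ |>.2 (Real.one_le_rpow (h2i i) (ha j).le)
  have hmr : ∀ j i, (m j i : ℝ) * r j i ≤ ((2 ^ i : ℕ) : ℝ) ^ (-(1 / 2) + 2 * a j) := by
    intro j i
    have e : ((2 ^ i : ℕ) : ℝ) ^ (-(1 / 2) + 2 * a j) =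
        ((2 ^ i : ℕ) : ℝ) ^ a j * ((2 ^ i : ℕ) : ℝ) ^ (-(1 / 2) + a j) := by
      rw [← Real.rpow_add (h2i0 i)]
      congr 1
      ring
    rw [e, hm, hr]
    exact mul_le_mul_of_nonneg_right
      (Nat.floor_le (Real.rpow_nonneg (h2i0 i).le _)) (Real.rpow_nonneg (h2i0 i).le _)
  have hmr1 : ∀ j i, (m j i : ℝ) * r j i ≤ 1 := by
    intro j i
    refine (hmr j i).trans (Real.rpow_le_one_of_one_le_of_nonpos (h2i i) ?_)
    have := ha16 j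
    linarith
  obtain ⟨Bad, hBad⟩ : ∃ Bad : ℕ → ℕ → Set (Vec 2), Bad = fun (j i : ℕ) =>
      {h : Vec 2 | h ∈ Lw ρ β (c j) (2 ^ i) ∧ ‖h‖ ≤ (j : ℝ) + 1 ∧
        ¬ Wn (Lw ρ β (c j) (2 ^ i)) h (r j i) (m j i * r j i)} := ⟨_, rfl⟩
  have hBv : ∀ j i, volume (Bad j i) ≤ ENNReal.ofReal (C j * ((2 : ℝ) ^ (-a j)) ^ i) := by
    intro j i
    have h1 := hvol j (Lw ρ β (c j) (2 ^ i)) (r j i) (m j i)
      (measurableSet_Lw62 hρ β (c j) (2 ^ i)) (hr0 j i) (hm1 j i) (hmr1 j i)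
    rw [hBad]
    refine h1.trans (ENNReal.ofReal_le_ofReal ?_)
    have h2 : ((2 ^ i : ℕ) : ℝ) ^ a j ≤ (m j i : ℝ) + 1 := by
      rw [hm]
      exact (Nat.lt_floor_add_one _).le
    have h3 : (0 : ℝ) < ((2 ^ i : ℕ) : ℝ) ^ a j := Real.rpow_pos_of_pos (h2i0 i) _
    have h4 : ((2 : ℝ) ^ (-a j)) ^ i = (((2 ^ i : ℕ) : ℝ) ^ a j)⁻¹ := by
      rw [← Real.rpow_neg (h2i0 i).le, ← Real.rpow_natCast ((2 : ℝ) ^ (-a j)) i,
        ← Real.rpow_mul (by norm_num)]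
      push_cast
      rw [← Real.rpow_natCast (2 : ℝ) i, ← Real.rpow_mul (by norm_num)]
      congr 1
      ring
    rw [h4, ← div_eq_mul_inv]
    exact div_le_div_of_nonneg_left (hC0 j) h3 h2
  have hBC : ∀ᵐ h : Vec 2, ∀ j : ℕ, ∀ᶠ i in atTop, h ∉ Bad j i := by
    rw [ae_all_iff]
    intro j
    refine ae_eventually_notMem ?_
    have hq0 : 0 ≤ (2 : ℝ) ^ (-a j) := Real.rpow_nonneg (by norm_num) _
    have hq1 : (2 : ℝ) ^ (-a j) < 1 :=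
      Real.rpow_lt_one_of_one_lt_of_neg (by norm_num) (by linarith [ha j])
    have hs : Summable fun i : ℕ => C j * ((2 : ℝ) ^ (-a j)) ^ i :=
      (summable_geometric_of_lt_one hq0 hq1).mul_left _
    exact ne_top_of_le_ne_top hs.tsum_ofReal_ne_top (ENNReal.tsum_le_tsum fun i => hBv j i)
  unfold CurvP at hC
  unfold AllN
  filter_upwards [hBC, hC] with h hb hCh hV
  obtain ⟨M, δ, hδ, hCh⟩ := hCh
  obtain ⟨g, hg⟩ : ∃ g : ℝ, g = Real.log (Phi h) + Real.log (∫ t, Real.exp (β * t) ∂ρ) -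
    lam ρ β h := ⟨_, rfl⟩
  have hg0 : 0 < g := by
    unfold VSD at hV
    linarith
  obtain ⟨j1, hj1⟩ := exists_nat_one_div_lt hg0
  obtain ⟨j2, hj2⟩ := exists_nat_ge ‖h‖
  obtain ⟨j3, hj3⟩ := exists_nat_ge M
  obtain ⟨j, hj⟩ : ∃ j, j = max (max j1 j2) j3 := ⟨_, rfl⟩
  have e1 : j1 ≤ j := by
    rw [hj]
    exact (le_max_left _ _).trans (le_max_left _ _)
  have e2 : j2 ≤ j := by
    rw [hj]
    exact (le_max_right _ _).trans (le_max_left _ _)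
  have e3 : j3 ≤ j := by
    rw [hj]
    exact le_max_right _ _
  have e1' : (j1 : ℝ) ≤ j := by exact_mod_cast e1
  have e2' : (j2 : ℝ) ≤ j := by exact_mod_cast e2
  have e3' : (j3 : ℝ) ≤ j := by exact_mod_cast e3
  have hgj : 1 / ((j : ℝ) + 1) ≤ g :=
    (one_div_le_one_div_of_le (by positivity) (by linarith)).trans hj1.le
  obtain ⟨N₀, hN₀⟩ := hpt j h δ hδ (by linarith) (fun r hr0 hr k =>
    (hCh r hr0 hr k).trans (mul_le_mul_of_nonneg_right (by linarith) (sq_nonneg r)))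
  refine ⟨c j / 4, by linarith [hc j], dya62 (hc j) ?_⟩
  have hbig : ∀ᶠ i : ℕ in atTop, N₀ ≤ 2 ^ i :=
    (tendsto_pow_atTop_atTop_of_one_lt (by norm_num : (1 : ℕ) < 2)).eventually_ge_atTop N₀
  filter_upwards [hb j, hbig] with i hi hNi
  have hnot : h ∉ Lw ρ β (c j) (2 ^ i) := by
    intro hL
    refine hi ?_
    rw [hBad]
    refine ⟨hL, by linarith, fun hw => hN₀ (2 ^ i) hNi hL ?_⟩
    intro k s hs
    obtain ⟨l, hl1, hl2, hl3⟩ := hw k s hs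
    refine ⟨l, ?_, hl2.trans (hmr j i), hl3⟩
    have : r j i = ((2 ^ i : ℕ) : ℝ) ^ (-(1 / 2) + a j) := by rw [hr]
    rw [← this]
    exact hl1
  simp only [Lw, Set.mem_ofPred_eq, not_forall, not_le] at hnot
  obtain ⟨m', hm', hv⟩ := hnot
  exact ⟨m', hm', hv⟩

end Pool.Agent.W_7d29a1_PN
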