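import Pool.Agent.W_7d29a1_PL.DefsPL

/-!
A power law for the variance at all large lengths, in two transversal dimensions, at almost every
tilt: definitions and statements of the leaves (helper25).
-/

namespace Pool.Agent.W_7d29a1_PN

open MeasureTheory ProbabilityTheory Filter Topology Pool.Agent.W_MP_7d29a1_pr
  Pool.Agent.W_7d29a1_h46 Pool.Agent.W_7d29a1_h46u Pool.Agent.W_7d29a1_D2.B35
  Pool.Agent.W_7d29a1_Q29 Pool.Agent.W_7d29a1_R34 Pool.Agent.W_7d29a1_SP Pool.Agent.W_7d29a1_PL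

/-- Neighbours on the axes, at one length `n`: at every scale `r` there is one at a distance in
`[r, r B]` at which the variance is at most `K` up to the time `n`. -/
def Win (ρ : Measure ℝ) (β : ℝ) (h : Vec 2) (M K B : ℝ) (n : ℕ) : Prop :=
  ∀ r : ℝ, 1 / (n : ℝ) ≤ r → r * B ≤ 1 / M → ∀ (j : Fin 2) (s : ℝ), (s = 1 ∨ s = -1) →
    ∃ l : ℝ, r ≤ l ∧ l ≤ r * B ∧ ∀ t : ℕ, t ≤ n → Va ρ β (h + (s * l) • ej j) t ≤ K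

/-- The data of a point at one length `n` (`d = 2`). -/
structure Pn (ρ : Measure ℝ) (β : ℝ) (h : Vec 2) (M K B : ℝ) (n : ℕ) : Prop where
  curv : ∀ r : ℝ, 0 < r → r ≤ 1 / M → ∀ j : Fin 2,
    lam ρ β (h + r • ej j) + lam ρ β (h - r • ej j) - 2 * lam ρ β h ≤ M * r ^ 2
  var : ∀ t : ℕ, t ≤ n → Va ρ β h t ≤ K
  non : ∀ t : ℕ, t ≤ n → En ρ β h t ≤ K
  win : Win ρ β h M K B n

section Leaves

variable (d : ℕ) (ρ : Measure ℝ) (β : ℝ)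

open Classical in
/-- LEAKW (`d = 2`): `LeakR` at one length, the neighbours are at a distance in a window. -/
def LeakW : Prop := ∀ (M K B E W : ℝ) (h v : Vec 2) (n t : ℕ), 1 ≤ M → 1 ≤ K → 1 ≤ B → 0 ≤ E →
  1 ≤ t → t ≤ n → 64 * M * B ≤ W → 2048 * M * B * E ≤ W ^ 2 →
  Va ρ β h n ≤ K → Va ρ β h (n - t) ≤ K →
  (∀ g : Vec 2, A ρ β h t + inner ℝ v (g - h) ≤ A ρ β g t) →
  Win ρ β h M K B n →
  (∀ l : ℝ, 0 < l → l ≤ 1 / M → ∀ j : Fin 2, A ρ β (h + l • ej j) t + A ρ β (h - l • ej j) t -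
    2 * A ρ β h t ≤ M * t * l ^ 2 + 2 * E) →
  ∫ η, (1 - ∑ y ∈ (boxF 2 t).filter (fun y => ∀ j, |(emb y - v) j| < W * Real.sqrt t),
    Qt β h n t y η) ∂(law 2 ρ) ≤
    14 * 10 ^ 6 * M ^ 2 * B ^ 2 * K / W ^ 4 +
      11 * 10 ^ 4 * M * B * Real.sqrt (K * t * St ρ β h n t) / W

/-- BUDN (`d = 2`): the budget at one length. -/
def BudN : Prop := ∀ M : ℝ, 1 ≤ M → ∃ C : ℝ, 0 ≤ C ∧ ∀ (h : Vec 2) (n : ℕ) (K B : ℝ),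
  1000 ≤ n → 1 ≤ K → 1 ≤ B → Pn ρ β h M K B n →
    Bd ρ β h n (C * Real.log (K * B) + C) C

/-- CORN: `CorP` without the lower bound of the fluctuations. -/
def CorN : Prop := ∀ g C₀ : ℝ, 0 < g → 0 ≤ C₀ → ∃ c : ℝ, 0 < c ∧ ∀ h : Vec d,
  lam ρ β h + g ≤ Real.log (Phi h) + Real.log (∫ t, Real.exp (β * t) ∂ρ) →
    ∃ n₀ : ℕ, ∀ n : ℕ, n₀ ≤ n →
      (∀ k : ℕ, k ≤ 4 * n → Va ρ β h k ≤ (n : ℝ) ^ c ∧ En ρ β h k ≤ (n : ℝ) ^ c) →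
      ¬ Bd ρ β h n (c * Real.log n) C₀

/-- AEN (`d = 2`): at almost every tilt, at all large dyadic lengths, either the variance is
large or there are neighbours. -/
def AeN : Prop := ∀ c : ℝ, 0 < c → ∀ᵐ h : Vec 2, ∃ J₀ : ℕ, ∀ J : ℕ, J₀ ≤ J →
  (∃ t : ℕ, t ≤ 2 ^ J ∧ (2 ^ J : ℝ) ^ c < Va ρ β h t) ∨
    Win ρ β h 1 ((2 ^ J : ℝ) ^ c) (2 * (2 ^ J : ℝ) ^ c) (2 ^ J)

/-- BETN: the nonrandom fluctuation, if the random ones are small up to the length `n`. -/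
def BetN : Prop := ∀ ε : ℝ, 0 < ε → ∃ c : ℝ, 0 < c ∧ ∀ h : Vec d,
  ∃ n₀ : ℕ, ∀ n : ℕ, n₀ ≤ n → (∀ t : ℕ, t ≤ n → Va ρ β h t ≤ (n : ℝ) ^ c) →
    ∀ k : ℕ, k ^ 4 ≤ n → En ρ β h k ≤ (n : ℝ) ^ ε

/-- MONN: the variance is monotone up to a power. -/
def MonN : Prop := ∀ c : ℝ, 0 < c → ∃ c' : ℝ, 0 < c' ∧ ∀ h : Vec d,
  ∃ n₀ : ℕ, ∀ n k : ℕ, n₀ ≤ n → k ≤ n → (n : ℝ) ^ c ≤ Va ρ β h k → (n : ℝ) ^ c' ≤ Va ρ β h n

/-- The maximum form at all large lengths (`d = 2`). -/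
def MaxPN : Prop := ∀ᵐ h : Vec 2, VSD ρ β h → ∃ c : ℝ, 0 < c ∧ ∀ᶠ n : ℕ in atTop,
  ∃ t : ℕ, t ≤ n ∧ (n : ℝ) ^ c ≤ Va ρ β h t

/-- The theorem (`d = 2`): the variance is at least a power, at all large lengths. -/
def MainPN : Prop := ∀ᵐ h : Vec 2, VSD ρ β h → ∃ c : ℝ, 0 < c ∧ ∀ᶠ n : ℕ in atTop,
  (n : ℝ) ^ c ≤ Va ρ β h n

end Leaves

end Pool.Agent.W_7d29a1_PN
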