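import Pool.Agent.W_7d29a1_PA.DefsPA

/-!
A power law for the variance at all large times in two transversal dimensions, the route of the
windows: the neighbours are on the axes, at a distance in a window (helper25).
-/

namespace Pool.Agent.W_7d29a1_PN

open MeasureTheory ProbabilityTheory Filter Topology Pool.Agent.W_MP_7d29a1_pr
  Pool.Agent.W_7d29a1_h46 Pool.Agent.W_7d29a1_h46u Pool.Agent.W_7d29a1_D2.B35
  Pool.Agent.W_7d29a1_Q29 Pool.Agent.W_7d29a1_R34 Pool.Agent.W_7d29a1_SP Pool.Agent.W_7d29a1_PL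
  Pool.Agent.W_7d29a1_PA

/-- The set `G` has a point at a distance in `[r₁, r₂]` of `h` in each direction of the axes. -/
def Wn (G : Set (Vec 2)) (h : Vec 2) (r₁ r₂ : ℝ) : Prop :=
  ∀ (j : Fin 2) (s : ℝ), (s = 1 ∨ s = -1) → ∃ l : ℝ, r₁ ≤ l ∧ l ≤ r₂ ∧ h + (s * l) • ej j ∈ G

/-- WIN (pure): the points of `G` without neighbours in a window are rare. -/
def WinP : Prop := ∀ R : ℝ, 0 < R → ∃ C : ℝ, 0 ≤ C ∧ ∀ (G : Set (Vec 2)) (r : ℝ) (N : ℕ),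
  MeasurableSet G → 0 < r → 1 ≤ N → (N : ℝ) * r ≤ 1 →
    volume {h : Vec 2 | h ∈ G ∧ ‖h‖ ≤ R ∧ ¬ Wn G h r (N * r)} ≤ ENNReal.ofReal (C / (N + 1))

section Leaves

variable (ρ : Measure ℝ) (β : ℝ)

/-- BUDW: the budget at one time, from neighbours in a window. -/
def BudW : Prop := ∀ M : ℝ, 0 < M → ∃ C : ℝ, 0 ≤ C ∧ ∀ (h : Vec 2) (δ a c : ℝ), 0 < δ →
  0 < a → a ≤ 1 / 16 → 0 < c → 8 * c ≤ a →
  (∀ r : ℝ, 0 < r → r ≤ δ → ∀ j : Fin 2,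
    lam ρ β (h + r • ej j) + lam ρ β (h - r • ej j) - 2 * lam ρ β h ≤ M * r ^ 2) →
  ∃ N₀ : ℕ, ∀ N : ℕ, N₀ ≤ N → (∀ m : ℕ, m ≤ N → Va ρ β h m ≤ (N : ℝ) ^ c) →
    (∀ m : ℕ, m ≤ N → En ρ β h m ≤ (N : ℝ) ^ a) →
      Wn (Lw ρ β c N) h ((N : ℝ) ^ (-(1 / 2) + a)) ((N : ℝ) ^ (-(1 / 2) + 2 * a)) →
        Bd ρ β h N (C * a * Real.log N) C

/-- PNTW: a tilt with a small variance has no neighbours of small variance in the window. -/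
def PntW : Prop := ∀ g M : ℝ, 0 < g → 0 < M → ∃ a c : ℝ, 0 < a ∧ a ≤ 1 / 16 ∧ 0 < c ∧
  ∀ (h : Vec 2) (δ : ℝ), 0 < δ →
  lam ρ β h + g ≤ Real.log (Phi h) + Real.log (∫ t, Real.exp (β * t) ∂ρ) →
  (∀ r : ℝ, 0 < r → r ≤ δ → ∀ j : Fin 2,
    lam ρ β (h + r • ej j) + lam ρ β (h - r • ej j) - 2 * lam ρ β h ≤ M * r ^ 2) →
  ∃ N₀ : ℕ, ∀ N : ℕ, N₀ ≤ N → h ∈ Lw ρ β c N →
    ¬ Wn (Lw ρ β c N) h ((N : ℝ) ^ (-(1 / 2) + a)) ((N : ℝ) ^ (-(1 / 2) + 2 * a))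

end Leaves

end Pool.Agent.W_7d29a1_PN
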