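import Pool.Agent.W_7d29a1_R34.Shell94

/-!
One shell, the neighbours are on the axes at a distance in a window: the expected mass of a set of
positions at distance at least `r` from the subgradient `v` (helper25).
-/

namespace Pool.Agent.W_7d29a1_PN

open MeasureTheory ProbabilityTheory Filter Topology Pool.Agent.W_MP_7d29a1_pr
  Pool.Agent.W_7d29a1_h46 Pool.Agent.W_7d29a1_h46u Pool.Agent.W_7d29a1_D2.B35
  Pool.Agent.W_7d29a1_Q29 Pool.Agent.W_7d29a1_R34

variable {ρ : Measure ℝ} [IsProbabilityMeasure ρ] {β : ℝ}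

theorem shellW25 (hρ : EM ρ) (hBox : BoxR 2 ρ β) (hTail : TailR 2 ρ β) {K r1 r2 r : ℝ} {h v : Vec 2}
    {n t : ℕ} (ht : t ≤ n) (hK : 1 ≤ K) (hr1 : 0 < r1) (hr : 0 < r) (hVn : Va ρ β h n ≤ K)
    (hVt : Va ρ β h (n - t) ≤ K)
    (hden : ∀ (j : Fin 2) (s : ℝ), (s = 1 ∨ s = -1) →
      ∃ l : ℝ, r1 ≤ l ∧ l ≤ r2 ∧ Va ρ β (h + (s * l) • ej j) t ≤ K)
    (hsd : ∀ l : ℝ, r1 ≤ l → l ≤ r2 → ∀ j : Fin 2, A ρ β (h + l • ej j) t +
      A ρ β (h - l • ej j) t - 2 * A ρ β h t ≤ l * r / 4)
    (hv : ∀ g : Vec 2, A ρ β h t + inner ℝ v (g - h) ≤ A ρ β g t) (R : Finset (Site 2))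
    (hR : R ⊆ boxF 2 t) (hfar : ∀ y ∈ R, ∃ i, r ≤ |emb y i - v i|) :
    ∫ η, ∑ y ∈ R, Qt β h n t y η ∂(law 2 ρ) ≤ 4 * (52 * K / (r1 * r / 4) ^ 2 +
      2 / (r1 * r / 4) * Real.sqrt (K * R.card * St ρ β h n t)) := by
  classical
  have hd : 0 < 2 := by norm_num
  obtain ⟨g', hg'⟩ : ∃ x, x = r1 * r / 4 := ⟨_, rfl⟩
  have hg0 : 0 < g' := by rw [hg']; positivity
  rw [← hg']
  have hSt : 0 ≤ St ρ β h n t := by
    unfold St
    exact integral_nonneg fun η => Finset.sum_nonneg fun y _ => sq_nonneg _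
  have hpiece : ∀ (j : Fin 2) (s : ℝ), (s = 1 ∨ s = -1) →
      ∫ η, ∑ y ∈ R.filter (fun y => Fr r (emb y - v) j s), Qt β h n t y η ∂(law 2 ρ) ≤
        52 * K / g' ^ 2 + 2 / g' * Real.sqrt (K * R.card * St ρ β h n t) := by
    intro j s hs
    obtain ⟨l, hl1, hl2, hg2⟩ := hden j s hs
    have hl0 : 0 < l := hr1.trans_le hl1
    set z : Vec 2 := (s * l) • ej j with hz
    set P := R.filter (fun y => Fr r (emb y - v) j s) with hP
    obtain ⟨b, hb⟩ : ∃ b, b = l * r / 2 := ⟨_, rfl⟩
    have hb0 : 0 < b := by rw [hb]; positivity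
    have hgb : g' ≤ b := by
      rw [hg', hb]
      have : r1 * r ≤ l * r := mul_le_mul_of_nonneg_right hl1 hr.le
      linarith [mul_pos hr1 hr]
    have hsdz : A ρ β (h + z) t + A ρ β (h - z) t - 2 * A ρ β h t ≤ b / 2 := by
      have h1 := hsd l hl1 hl2 j
      have h2 : b / 2 = l * r / 4 := by rw [hb]; ring
      rw [h2]
      rcases hs with h3 | h3
      · rw [hz, h3, one_mul]
        exact h1
      · have e1 : h + z = h - l • ej j := by
          rw [hz, h3, neg_one_mul, neg_smul, sub_eq_add_neg]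
        have e2 : h - z = h + l • ej j := by
          rw [hz, h3, neg_one_mul, neg_smul, sub_neg_eq_add]
        rw [e1, e2]
        linarith
    have htail := hTail K b h z v t hb0 hg2 hv hsdz
    have hsub : P ⊆ (boxF 2 t).filter (fun y => 2 * b ≤ inner ℝ z (emb y - v)) := by
      intro y hy
      obtain ⟨hyR, hyF⟩ := Finset.mem_filter.1 hy
      refine Finset.mem_filter.2 ⟨hR hyR, ?_⟩
      have h1 : inner ℝ z (emb y - v) = l * (s * (emb y - v) j) := by
        rw [hz, real_inner_smul_left, inner_ej94]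
        ring
      have h2 : r ≤ s * (emb y - v) j := hyF.2
      rw [h1, hb]
      have h3 := mul_le_mul_of_nonneg_left h2 hl0.le
      linarith
    have hq : (law 2 ρ).real {η | Real.exp (A ρ β h t - g') < ∑ y ∈ P, PP β h η t y} ≤
        4 * K / g' ^ 2 := by
      refine le_trans (measureReal_mono ?_ (measure_ne_top _ _)) (htail.trans ?_)
      · intro η hη
        have h1 : Real.exp (A ρ β h t - b) ≤ Real.exp (A ρ β h t - g') :=
          Real.exp_le_exp.2 (by linarith)
        exact lt_of_le_of_lt h1 (lt_of_lt_of_le hη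
          (Finset.sum_le_sum_of_subset_of_nonneg hsub fun y _ _ => PP_nonneg β h η t y))
      · exact div_le_div_of_nonneg_left (by positivity) (by positivity)
          (pow_le_pow_left₀ hg0.le hgb 2)
    have hbox := hBox K g' (4 * K / g' ^ 2) h n t P ((Finset.filter_subset _ _).trans hR) ht hg0
      hVn hVt hq
    refine hbox.trans ?_
    have h1 : Real.exp (-(g' / 4)) ≤ 32 * K / g' ^ 2 := by
      refine (exp_le94 hg0).trans ?_
      refine div_le_div_of_nonneg_right (by linarith) (by positivity)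
    have h2 : Real.sqrt (K * P.card * St ρ β h n t) ≤
        Real.sqrt (K * R.card * St ρ β h n t) := by
      apply Real.sqrt_le_sqrt
      have h3 : (P.card : ℝ) ≤ R.card := by
        exact_mod_cast Finset.card_le_card (Finset.filter_subset _ _)
      have h4 : K * P.card ≤ K * R.card := mul_le_mul_of_nonneg_left h3 (by linarith)
      exact mul_le_mul_of_nonneg_right h4 hSt
    have h5 := mul_le_mul_of_nonneg_left h2 (show 0 ≤ 2 / g' by positivity)
    have h6 : 4 * K / g' ^ 2 + 16 * K / g' ^ 2 + 32 * K / g' ^ 2 = 52 * K / g' ^ 2 := by ring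
    linarith
  have iQ : ∀ y, Integrable (fun η => Qt β h n t y η) (law 2 ρ) := fun y =>
    Integrable.mono' (integrable_const (1 : ℝ)) (measurable_Qt94 β h n t y).aestronglyMeasurable
      (Eventually.of_forall fun η => by
        rw [Real.norm_eq_abs, abs_of_nonneg (Qt_nonneg94 β h n t y η)]
        exact Qt_le_one94 hd β h ht y η)
  have hpt : ∀ η : Env 2, ∑ y ∈ R, Qt β h n t y η ≤ ∑ j : Fin 2,
      (∑ y ∈ R.filter (fun y => Fr r (emb y - v) j 1), Qt β h n t y η +
        ∑ y ∈ R.filter (fun y => Fr r (emb y - v) j (-1)), Qt β h n t y η) := by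
    intro η
    simp only [Finset.sum_filter]
    simp only [← Finset.sum_add_distrib]
    rw [Finset.sum_comm]
    refine Finset.sum_le_sum fun y hy => ?_
    obtain ⟨i, hi⟩ := exists_FrL94 (s := r) (D := emb y - v) (hfar y hy)
    have hQ := Qt_nonneg94 β h n t y η
    have h0 : ∀ (j : Fin 2) (s : ℝ), 0 ≤ (if Fr r (emb y - v) j s then Qt β h n t y η else 0) := by
      intro j s
      split_ifs
      · exact hQ
      · exact le_rfl
    refine le_trans ?_ (Finset.single_le_sum (f := fun j : Fin 2 =>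
      (if Fr r (emb y - v) j 1 then Qt β h n t y η else 0) +
        (if Fr r (emb y - v) j (-1) then Qt β h n t y η else 0))
      (fun j _ => add_nonneg (h0 j 1) (h0 j (-1))) (Finset.mem_univ i))
    rcases hi with hi | hi
    · simp only [if_pos hi]
      have := h0 i (-1)
      linarith
    · simp only [if_pos hi]
      have := h0 i 1
      linarith
  have hint : ∫ η, ∑ y ∈ R, Qt β h n t y η ∂(law 2 ρ) ≤ ∫ η, ∑ j : Fin 2,
      (∑ y ∈ R.filter (fun y => Fr r (emb y - v) j 1), Qt β h n t y η +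
        ∑ y ∈ R.filter (fun y => Fr r (emb y - v) j (-1)), Qt β h n t y η) ∂(law 2 ρ) :=
    integral_mono (integrable_finsetSum R fun y _ => iQ y)
      (integrable_finsetSum Finset.univ fun j _ =>
        (integrable_finsetSum _ fun y _ => iQ y).add (integrable_finsetSum _ fun y _ => iQ y)) hpt
  refine hint.trans ?_
  have hI : ∀ (j : Fin 2) (s : ℝ), Integrable (fun η =>
      ∑ y ∈ R.filter (fun y => Fr r (emb y - v) j s), Qt β h n t y η) (law 2 ρ) := fun j s =>
    integrable_finsetSum _ fun y _ => iQ y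
  have hIj : ∀ j : Fin 2, Integrable (fun η =>
      ∑ y ∈ R.filter (fun y => Fr r (emb y - v) j 1), Qt β h n t y η +
        ∑ y ∈ R.filter (fun y => Fr r (emb y - v) j (-1)), Qt β h n t y η) (law 2 ρ) :=
    fun j => (hI j 1).add (hI j (-1))
  rw [integral_finsetSum Finset.univ fun j _ => hIj j]
  have hj : ∀ j : Fin 2, ∫ η, (∑ y ∈ R.filter (fun y => Fr r (emb y - v) j 1), Qt β h n t y η +
        ∑ y ∈ R.filter (fun y => Fr r (emb y - v) j (-1)), Qt β h n t y η) ∂(law 2 ρ) ≤
      2 * (52 * K / g' ^ 2 + 2 / g' * Real.sqrt (K * R.card * St ρ β h n t)) := by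
    intro j
    rw [integral_add (hI j 1) (hI j (-1))]
    have h1 := hpiece j 1 (Or.inl rfl)
    have h2 := hpiece j (-1) (Or.inr rfl)
    linarith
  refine (Finset.sum_le_sum fun j _ => hj j).trans (le_of_eq ?_)
  rw [Finset.sum_const, Finset.card_univ, Fintype.card_fin, nsmul_eq_mul]
  push_cast
  ring

end Pool.Agent.W_7d29a1_PN
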