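import Pool.Agent.W_7d29a1_PN.DefsPW
import Pool.Agent.W_7d29a1_PL.Tra26

/-!
Leaf WIN: the points of a set without neighbours in a window are rare.
-/

set_option autoImplicit false

namespace Pool.Agent.W_7d29a1_PN

open MeasureTheory ProbabilityTheory Filter Topology Pool.Agent.W_MP_7d29a1_pr
  Pool.Agent.W_7d29a1_h46 Pool.Agent.W_7d29a1_h46u Pool.Agent.W_7d29a1_D2.B35
  Pool.Agent.W_7d29a1_Q29 Pool.Agent.W_7d29a1_R34 Pool.Agent.W_7d29a1_SP Pool.Agent.W_7d29a1_PL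
  Pool.Agent.W_7d29a1_PA

/-- One direction: no point of `G` among `h + i r`, `1 ≤ i ≤ N`. -/
lemma one26 {G : Set (Vec 2)} {R r : ℝ} {N : ℕ} (hG : MeasurableSet G) (hr : 0 < r)
    (hN : (N : ℝ) * r ≤ 1) (u : Vec 2) (hu : ‖u‖ = r) :
    ((N : ENNReal) + 1) * volume {h : Vec 2 | h ∈ G ∧ ‖h‖ ≤ R ∧
      ∀ i ∈ Finset.Icc 1 N, h + (i : ℝ) • u ∉ G} ≤
      volume (Metric.closedBall (0 : Vec 2) (R + 1)) := by
  refine tra26 ?_ ?_ u N (by rw [hu]; exact hN) ?_
  · have e : {h : Vec 2 | h ∈ G ∧ ‖h‖ ≤ R ∧ ∀ i ∈ Finset.Icc 1 N, h + (i : ℝ) • u ∉ G} =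
        G ∩ ({h : Vec 2 | ‖h‖ ≤ R} ∩ ⋂ i ∈ Finset.Icc 1 N,
          (fun h : Vec 2 => h + (i : ℝ) • u) ⁻¹' Gᶜ) := by
      ext h
      simp only [Set.mem_setOf_eq, Set.mem_inter_iff, Set.mem_iInter, Set.mem_preimage,
        Set.mem_compl_iff]
    rw [e]
    refine hG.inter ((isClosed_le continuous_norm continuous_const).measurableSet.inter ?_)
    refine Finset.measurableSet_biInter _ fun i _ => ?_
    exact hG.compl.preimage (measurable_id.add_const _)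
  · intro h hh
    rw [mem_closedBall_zero_iff]
    exact hh.2.1
  · intro i hi1 hiN h hh hh'
    exact hh.2.2 i (Finset.mem_Icc.2 ⟨hi1, hiN⟩) hh'.1

/-- **WIN.** -/
theorem win26 : WinP := by
  intro R hR
  obtain ⟨V, hV⟩ : ∃ V, V = volume (Metric.closedBall (0 : Vec 2) (R + 1)) := ⟨_, rfl⟩
  have hVt : V ≠ ⊤ := by
    rw [hV]
    exact measure_closedBall_lt_top.ne
  refine ⟨4 * V.toReal, by positivity, fun G r N hG hr hN1 hN => ?_⟩
  obtain ⟨S, hS⟩ : ∃ S : Fin 2 → ℝ → Set (Vec 2), S = fun j s => {h : Vec 2 | h ∈ G ∧ ‖h‖ ≤ R ∧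
      ∀ i ∈ Finset.Icc 1 N, h + (i : ℝ) • ((s * r) • ej j) ∉ G} := ⟨_, rfl⟩
  have hbd : ∀ (j : Fin 2) (s : ℝ), (s = 1 ∨ s = -1) →
      volume (S j s) ≤ V / ((N : ENNReal) + 1) := by
    intro j s hs
    have hu : ‖(s * r) • ej j‖ = r := by
      have h1 : ‖ej j‖ = 1 := by
        unfold ej
        simp
      rw [norm_smul, h1, mul_one, Real.norm_eq_abs, abs_mul, abs_of_pos hr]
      rcases hs with rfl | rfl <;> simp
    have h1 := one26 (R := R) hG hr hN ((s * r) • ej j) hu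
    rw [← hV] at h1
    rw [hS]
    rw [ENNReal.le_div_iff_mul_le (Or.inl (by simp)) (Or.inl (by
      exact ENNReal.add_ne_top.2 ⟨ENNReal.natCast_ne_top N, ENNReal.one_ne_top⟩)), mul_comm]
    exact h1
  have hsub : {h : Vec 2 | h ∈ G ∧ ‖h‖ ≤ R ∧ ¬ Wn G h r (N * r)} ⊆
      (S 0 1 ∪ S 0 (-1)) ∪ (S 1 1 ∪ S 1 (-1)) := by
    rintro h ⟨h1, h2, h3⟩
    unfold Wn at h3
    push Not at h3
    obtain ⟨j, s, hs, h4⟩ := h3
    have h5 : h ∈ S j s := by
      rw [hS]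
      refine ⟨h1, h2, fun i hi => ?_⟩
      obtain ⟨hi1, hi2⟩ := Finset.mem_Icc.1 hi
      have hi1' : (1 : ℝ) ≤ i := by exact_mod_cast hi1
      have hi2' : (i : ℝ) ≤ N := by exact_mod_cast hi2
      have h6 := h4 (i * r) (by nlinarith) (mul_le_mul_of_nonneg_right hi2' hr.le)
      have h7 : (i : ℝ) • ((s * r) • ej j) = (s * (i * r)) • ej j := by
        rw [smul_smul]
        congr 1
        ring
      rw [h7]
      exact h6
    fin_cases j
    · rcases hs with rfl | rfl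
      · exact Or.inl (Or.inl h5)
      · exact Or.inl (Or.inr h5)
    · rcases hs with rfl | rfl
      · exact Or.inr (Or.inl h5)
      · exact Or.inr (Or.inr h5)
  obtain ⟨x, hx⟩ : ∃ x, x = V / ((N : ENNReal) + 1) := ⟨_, rfl⟩
  have h1 : volume ((S 0 1 ∪ S 0 (-1)) ∪ (S 1 1 ∪ S 1 (-1))) ≤ (x + x) + (x + x) := by
    rw [hx]
    refine (measure_union_le _ _).trans (add_le_add ?_ ?_)
    · exact (measure_union_le _ _).trans (add_le_add (hbd 0 1 (Or.inl rfl))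
        (hbd 0 (-1) (Or.inr rfl)))
    · exact (measure_union_le _ _).trans (add_le_add (hbd 1 1 (Or.inl rfl))
        (hbd 1 (-1) (Or.inr rfl)))
  have h2 : (x + x) + (x + x) = ENNReal.ofReal (4 * V.toReal / (N + 1)) := by
    have hN0 : (0 : ℝ) < (N : ℝ) + 1 := by positivity
    have e1 : x = ENNReal.ofReal (V.toReal / (N + 1)) := by
      rw [hx, ENNReal.ofReal_div_of_pos hN0, ENNReal.ofReal_toReal hVt,
        ENNReal.ofReal_add (Nat.cast_nonneg N) zero_le_one, ENNReal.ofReal_natCast,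
        ENNReal.ofReal_one]
    have h0 : 0 ≤ V.toReal / ((N : ℝ) + 1) := by positivity
    rw [e1, ← ENNReal.ofReal_add h0 h0, ← ENNReal.ofReal_add (by positivity) (by positivity)]
    congr 1
    ring
  exact (measure_mono hsub).trans (h1.trans h2.le)

end Pool.Agent.W_7d29a1_PN
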